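import Pool.Agent.T3H29.EI.Scale

/-! Mean square of the lengths of disjoint intervals without small gaps. -/

set_option autoImplicit false

namespace Pool.Agent.T3H29.EI

open Filter Topology Set MeasureTheory
open SG hiding dd nn Sep cc

/-- `[a, b]` contains no two consecutive ordinates at distance less than `c` times the mean spacing -/
def Free (c a b : ℝ) : Prop :=
  ¬ ∃ n : ℕ, 1 ≤ n ∧ a ≤ ord n ∧ ord (n + 1) ≤ b ∧ ord (n + 1) - ord n < c * (2 * Real.pi / Real.log (ord n))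

/-- the long intervals -/
theorem long_sum (c θ ε : ℝ) (hc : 1 / 2 < c) (hθ : 0 < θ) (hθ1 : θ < 1) (hε : 0 < ε) :
    ∃ T0 : ℝ, ∀ T : ℝ, T0 ≤ T → ∀ (I : Finset ℕ) (a b : ℕ → ℝ),
      (∀ i ∈ I, T ≤ a i ∧ a i ≤ b i ∧ b i ≤ 2 * T) →
      (∀ i ∈ I, ∀ j ∈ I, i ≠ j → b i ≤ a j ∨ b j ≤ a i) →
      (∀ i ∈ I, Free c (a i) (b i)) → (∀ i ∈ I, T ^ θ < b i - a i) →
      ∑ i ∈ I, (b i - a i) ≤ 2 * T ^ (max 1 (2 / c - 2) - θ + ε) := by
  obtain ⟨T1, h1⟩ := main_scale c θ ε hc hθ hθ1 hε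
  have hc0 : 0 < c := by linarith
  refine ⟨max T1 2, fun T hT I a b hab hdis hfree hlong => ?_⟩
  have hTT1 : T1 ≤ T := (le_max_left _ _).trans hT
  have hT2 : 2 ≤ T := (le_max_right _ _).trans hT
  have hTpos : 0 < T := by linarith
  obtain ⟨S, hS1, hS2⟩ := h1 T hTT1
  obtain ⟨H, hH⟩ : ∃ H : ℝ, H = T ^ θ := ⟨_, rfl⟩
  have hHpos : 0 < H := by rw [hH]; positivity
  rw [← hH] at hS2
  rw [← hH] at hlong
  set V : ℝ := T ^ (max 1 (2 / c - 2) - θ + ε) with hV
  have hV0 : 0 ≤ V := by positivity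
  have hsub : ∀ i ∈ I, Icc (a i + H / 4) (b i - H / 4) ⊆ S := by
    intro i hi y hy
    obtain ⟨a1, a2, a3⟩ := hab i hi
    by_contra hyS
    obtain ⟨n, hn, b1, b2, b3⟩ := hS2 (y - H / 4) (by linarith [hy.1]) (by linarith [hy.2]) (by
      have : y - H / 4 + H / 4 = y := by ring
      rw [this]; exact hyS)
    apply hfree i hi
    have h6 : ord n ≤ ord (n + 1) := SG.ord_mono hn (by omega)
    refine ⟨n, hn, by linarith [hy.1], by linarith [hy.2], lt_of_lt_of_le b3 ?_⟩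
    apply mul_le_mul_of_nonneg_left _ hc0.le
    apply div_le_div_of_nonneg_left (by positivity) (Real.log_pos (by linarith [hy.1]))
    exact Real.log_le_log (by linarith [hy.1]) (by linarith [hy.2])
  have hdis2 : (I : Set ℕ).PairwiseDisjoint (fun i => Icc (a i + H / 4) (b i - H / 4)) := by
    intro i hi j hj hne
    show Disjoint (Icc (a i + H / 4) (b i - H / 4)) (Icc (a j + H / 4) (b j - H / 4))
    rw [Set.disjoint_left]
    intro y hy hy'
    rcases hdis i hi j hj hne with h | h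
    · linarith [hy.2, hy'.1]
    · linarith [hy.1, hy'.2]
  have hsum : ∑ i ∈ I, volume (Icc (a i + H / 4) (b i - H / 4)) ≤ ENNReal.ofReal V := by
    rw [← measure_biUnion_finset hdis2 (fun j _ => measurableSet_Icc)]
    refine (measure_mono ?_).trans hS1
    apply Set.iUnion₂_subset
    intro j hj
    exact hsub j hj
  have hv : ∑ i ∈ I, volume (Icc (a i + H / 4) (b i - H / 4)) = ENNReal.ofReal (∑ i ∈ I, (b i - a i - H / 2)) := by
    rw [ENNReal.ofReal_sum_of_nonneg]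
    · apply Finset.sum_congr rfl
      intro i _
      rw [Real.volume_Icc]
      congr 1
      ring
    · intro i hi
      linarith [hlong i hi]
  rw [hv, ENNReal.ofReal_le_ofReal_iff hV0] at hsum
  have h5 : ∑ i ∈ I, (b i - a i) ≤ ∑ i ∈ I, 2 * (b i - a i - H / 2) := by
    apply Finset.sum_le_sum
    intro i hi
    linarith [hlong i hi]
  rw [← Finset.mul_sum] at h5
  linarith

/-- layers -/
theorem layer {x T : ℝ} (hT : 1 ≤ T) (J : ℕ) : ∀ k : ℕ, x ≤ T ^ (((k : ℝ) + 1) / J) →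
    x ≤ T ^ ((1 : ℝ) / J) + ∑ j ∈ Finset.range k,
      (if T ^ (((j : ℝ) + 1) / J) < x then T ^ (((j : ℝ) + 2) / J) else 0) := by
  have hT0 : 0 < T := by linarith
  intro k
  induction k with
  | zero =>
    intro h
    simpa using h
  | succ k ih =>
    intro h
    rw [Finset.sum_range_succ]
    by_cases hx : T ^ (((k : ℝ) + 1) / J) < x
    · rw [if_pos hx]
      have h1 : 0 ≤ ∑ j ∈ Finset.range k,
          (if T ^ (((j : ℝ) + 1) / J) < x then T ^ (((j : ℝ) + 2) / J) else 0) := by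
        apply Finset.sum_nonneg
        intro j _
        split_ifs
        · positivity
        · exact le_rfl
      have h2 : 0 ≤ T ^ ((1 : ℝ) / J) := by positivity
      have h3 : (((k + 1 : ℕ) : ℝ) + 1) / J = ((k : ℝ) + 2) / J := by push_cast; ring
      rw [h3] at h
      linarith
    · rw [if_neg hx, add_zero]
      exact ih (not_lt.1 hx)

/-- the total length is at most `T` -/
theorem total_le {T : ℝ} (hT : 0 ≤ T) (I : Finset ℕ) (a b : ℕ → ℝ) (hab : ∀ i ∈ I, T ≤ a i ∧ a i ≤ b i ∧ b i ≤ 2 * T)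
    (hdis : ∀ i ∈ I, ∀ j ∈ I, i ≠ j → b i ≤ a j ∨ b j ≤ a i) : ∑ i ∈ I, (b i - a i) ≤ T := by
  have hdis2 : (I : Set ℕ).PairwiseDisjoint (fun i => Ioo (a i) (b i)) := by
    intro i hi j hj hne
    show Disjoint (Ioo (a i) (b i)) (Ioo (a j) (b j))
    rw [Set.disjoint_left]
    intro y hy hy'
    rcases hdis i hi j hj hne with h | h
    · linarith [hy.2, hy'.1]
    · linarith [hy.1, hy'.2]
  have hsum : ∑ i ∈ I, volume (Ioo (a i) (b i)) ≤ volume (Icc T (2 * T)) := by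
    rw [← measure_biUnion_finset hdis2 (fun j _ => measurableSet_Ioo)]
    apply measure_mono
    apply Set.iUnion₂_subset
    intro j hj y hy
    obtain ⟨a1, a2, a3⟩ := hab j hj
    exact ⟨by linarith [hy.1], by linarith [hy.2]⟩
  have hv : ∑ i ∈ I, volume (Ioo (a i) (b i)) = ENNReal.ofReal (∑ i ∈ I, (b i - a i)) := by
    rw [ENNReal.ofReal_sum_of_nonneg]
    · apply Finset.sum_congr rfl
      intro i _
      rw [Real.volume_Ioo]
    · intro i hi
      linarith [(hab i hi).2.1]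
  rw [hv, Real.volume_Icc, ENNReal.ofReal_le_ofReal_iff (by linarith)] at hsum
  linarith

/-- **mean square** -/
theorem mean_square (c : ℝ) (hc : 1 / 2 < c) (ε : ℝ) (hε : 0 < ε) :
    ∃ T0 : ℝ, ∀ T : ℝ, T0 ≤ T → ∀ (I : Finset ℕ) (a b : ℕ → ℝ),
      (∀ i ∈ I, T ≤ a i ∧ a i ≤ b i ∧ b i ≤ 2 * T) →
      (∀ i ∈ I, ∀ j ∈ I, i ≠ j → b i ≤ a j ∨ b j ≤ a i) →
      (∀ i ∈ I, Free c (a i) (b i)) →
      ∑ i ∈ I, (b i - a i) ^ 2 ≤ T ^ (max 1 (2 / c - 2) + ε) := by
  classical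
  obtain ⟨m, hm⟩ : ∃ m : ℝ, m = max 1 (2 / c - 2) := ⟨_, rfl⟩
  have hm1 : 1 ≤ m := hm ▸ le_max_left _ _
  obtain ⟨J0, hJ0⟩ := exists_nat_gt (4 / ε)
  obtain ⟨J, hJ⟩ : ∃ J : ℕ, J = J0 + 1 := ⟨_, rfl⟩
  have hJ1 : 1 ≤ J := by omega
  have hJpos : (0 : ℝ) < J := by exact_mod_cast hJ1
  have hJε : 1 / (J : ℝ) ≤ ε / 4 := by
    have h1 : 4 / ε < J := by
      rw [hJ]; push_cast; linarith
    rw [div_lt_iff₀ hε] at h1
    rw [div_le_iff₀ hJpos]
    linarith
  have hall : ∀ j : ℕ, ∃ T0 : ℝ, j + 1 < J → ∀ T : ℝ, T0 ≤ T → ∀ (I : Finset ℕ) (a b : ℕ → ℝ),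
      (∀ i ∈ I, T ≤ a i ∧ a i ≤ b i ∧ b i ≤ 2 * T) →
      (∀ i ∈ I, ∀ j ∈ I, i ≠ j → b i ≤ a j ∨ b j ≤ a i) →
      (∀ i ∈ I, Free c (a i) (b i)) → (∀ i ∈ I, T ^ (((j : ℝ) + 1) / J) < b i - a i) →
      ∑ i ∈ I, (b i - a i) ≤ 2 * T ^ (m - ((j : ℝ) + 1) / J + ε / 4) := by
    intro j
    by_cases hj : j + 1 < J
    · have hj1 : (j : ℝ) + 1 < J := by exact_mod_cast hj
      obtain ⟨T0, h⟩ := long_sum c (((j : ℝ) + 1) / J) (ε / 4) hc (by positivity)
        ((div_lt_one hJpos).2 hj1) (by linarith)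
      rw [← hm] at h
      exact ⟨T0, fun _ => h⟩
    · exact ⟨0, fun h => absurd h hj⟩
  choose T1 hT1 using hall
  have ev : ∀ᶠ T : ℝ in atTop, 2 * (J : ℝ) ≤ T ^ (ε / 2) :=
    (tendsto_rpow_atTop (half_pos hε)).eventually_ge_atTop _
  obtain ⟨T2, hT2⟩ := eventually_atTop.1 (ev.and (eventually_ge_atTop (1 : ℝ)))
  obtain ⟨M, hM⟩ : ∃ M : ℝ, ∀ j ∈ Finset.range J, T1 j ≤ M := by
    refine ⟨∑ j ∈ Finset.range J, |T1 j|, fun j hj => (le_abs_self _).trans ?_⟩
    exact Finset.single_le_sum (f := fun j => |T1 j|) (fun i _ => abs_nonneg _) hj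
  refine ⟨max T2 M, fun T hT I a b hab hdis hfree => ?_⟩
  obtain ⟨g1, g2⟩ := hT2 T ((le_max_left _ _).trans hT)
  have hMT : M ≤ T := (le_max_right _ _).trans hT
  have hT0 : 0 < T := by linarith
  rw [← hm]
  -- pointwise
  have hpt : ∀ i ∈ I, (b i - a i) ^ 2 ≤ (b i - a i) * T ^ ((1 : ℝ) / J) + ∑ j ∈ Finset.range (J - 1),
      (if T ^ (((j : ℝ) + 1) / J) < b i - a i then (b i - a i) * T ^ (((j : ℝ) + 2) / J) else 0) := by
    intro i hi
    obtain ⟨a1, a2, a3⟩ := hab i hi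
    have h0 : 0 ≤ b i - a i := by linarith
    have h1 := layer (x := b i - a i) g2 J (J - 1) (by
      have h2 : (((J - 1 : ℕ) : ℝ) + 1) / J = 1 := by
        rw [Nat.cast_sub hJ1, Nat.cast_one, sub_add_cancel, div_self hJpos.ne']
      rw [h2, Real.rpow_one]
      linarith)
    have h2 := mul_le_mul_of_nonneg_left h1 h0
    rw [mul_add, Finset.mul_sum] at h2
    refine le_trans (le_of_eq (by ring)) (h2.trans (le_of_eq ?_))
    congr 1
    apply Finset.sum_congr rfl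
    intro j _
    split_ifs
    · rfl
    · rw [mul_zero]
  have hlayer : ∀ j ∈ Finset.range (J - 1), ∑ i ∈ I,
      (if T ^ (((j : ℝ) + 1) / J) < b i - a i then (b i - a i) * T ^ (((j : ℝ) + 2) / J) else 0) ≤
        2 * T ^ (m + ε / 2) := by
    intro j hj
    rw [Finset.mem_range] at hj
    have hjJ : j + 1 < J := by omega
    rw [← Finset.sum_filter, ← Finset.sum_mul]
    have h1 := hT1 j hjJ T ((hM j (Finset.mem_range.2 (by omega))).trans hMT)
      (I.filter (fun i => T ^ (((j : ℝ) + 1) / J) < b i - a i)) a b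
      (fun i hi => hab i (Finset.mem_filter.1 hi).1)
      (fun i hi k hk hne => hdis i (Finset.mem_filter.1 hi).1 k (Finset.mem_filter.1 hk).1 hne)
      (fun i hi => hfree i (Finset.mem_filter.1 hi).1)
      (fun i hi => (Finset.mem_filter.1 hi).2)
    have hp : 0 ≤ T ^ (((j : ℝ) + 2) / J) := by positivity
    calc (∑ i ∈ I.filter (fun i => T ^ (((j : ℝ) + 1) / J) < b i - a i), (b i - a i)) * T ^ (((j : ℝ) + 2) / J)
        ≤ (2 * T ^ (m - ((j : ℝ) + 1) / J + ε / 4)) * T ^ (((j : ℝ) + 2) / J) :=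
          mul_le_mul_of_nonneg_right h1 hp
      _ = 2 * T ^ (m + 1 / J + ε / 4) := by
          rw [mul_assoc, ← Real.rpow_add hT0]
          congr 2
          field_simp
          ring
      _ ≤ 2 * T ^ (m + ε / 2) := by
          apply mul_le_mul_of_nonneg_left _ (by norm_num)
          exact Real.rpow_le_rpow_of_exponent_le g2 (by linarith)
  have htot := total_le hT0.le I a b hab hdis
  have hbase : (∑ i ∈ I, (b i - a i)) * T ^ ((1 : ℝ) / J) ≤ T ^ (m + ε / 2) := by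
    calc (∑ i ∈ I, (b i - a i)) * T ^ ((1 : ℝ) / J) ≤ T * T ^ ((1 : ℝ) / J) :=
          mul_le_mul_of_nonneg_right htot (by positivity)
      _ = T ^ (1 + (1 : ℝ) / J) := by
          rw [Real.rpow_add hT0, Real.rpow_one]
      _ ≤ _ := Real.rpow_le_rpow_of_exponent_le g2 (by linarith)
  calc ∑ i ∈ I, (b i - a i) ^ 2 ≤ ∑ i ∈ I, ((b i - a i) * T ^ ((1 : ℝ) / J) + ∑ j ∈ Finset.range (J - 1),
      (if T ^ (((j : ℝ) + 1) / J) < b i - a i then (b i - a i) * T ^ (((j : ℝ) + 2) / J) else 0)) :=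
        Finset.sum_le_sum hpt
    _ = (∑ i ∈ I, (b i - a i)) * T ^ ((1 : ℝ) / J) + ∑ j ∈ Finset.range (J - 1), ∑ i ∈ I,
      (if T ^ (((j : ℝ) + 1) / J) < b i - a i then (b i - a i) * T ^ (((j : ℝ) + 2) / J) else 0) := by
        rw [Finset.sum_add_distrib, Finset.sum_mul, Finset.sum_comm]
    _ ≤ T ^ (m + ε / 2) + ∑ j ∈ Finset.range (J - 1), 2 * T ^ (m + ε / 2) :=
        add_le_add hbase (Finset.sum_le_sum hlayer)
    _ = (1 + 2 * ((J - 1 : ℕ) : ℝ)) * T ^ (m + ε / 2) := by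
        rw [Finset.sum_const, Finset.card_range, nsmul_eq_mul]
        ring
    _ ≤ T ^ (ε / 2) * T ^ (m + ε / 2) := by
        apply mul_le_mul_of_nonneg_right _ (by positivity)
        rw [Nat.cast_sub hJ1, Nat.cast_one]
        linarith
    _ = T ^ (m + ε) := by
        rw [← Real.rpow_add hT0]
        congr 1
        ring

end Pool.Agent.T3H29.EI
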