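import Pool.Agent.T3H29.EI.Stm
import Pool.Agent.Y856.Metric.HC

set_option autoImplicit false

namespace Pool.Agent.T3H29.EI

open MeasureTheory Filter Topology MeasureTheory.Measure
open scoped ENNReal

lemma dim_aux (θ η : ℝ) (E : Set ℝ) (_hθ : 0 < θ) (_hθ1 : θ < 1) (_hη : 0 ≤ η) (hE : Thin θ η E)
    (a : ℝ) (f : ℕ → ℝ → ℝ) (ha : 0 ≤ a)
    (hf : ∀ n : ℕ, ∀ x y : ℝ, a < x → x ≤ y → 0 < f n x ∧ f n x / x ≤ f n y / y)
    (hs : ∀ x : ℝ, a < x → ∀ δ : ℝ, 0 < δ → Summable fun n => (f n x) ^ (-δ))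
    (s : ℝ) (hs0 : 0 < s) (hsη : η < s * (1 - θ)) (p q : ℝ) (hp : a < p) (hpq : p < q) :
    μH[s] {α : ℝ | p < α ∧ α < q ∧ ∃ᶠ n in atTop, f n α ∈ E} ≠ ∞ := by
  classical
  obtain ⟨δ, hδ⟩ : ∃ δ : ℝ, δ = (s * (1 - θ) - η) / 4 := ⟨_, rfl⟩
  have hδ0 : 0 < δ := by rw [hδ]; linarith
  obtain ⟨T0, hT0⟩ := hE (2 * δ) (by linarith)
  choose! F hFc hF using hT0
  have hp0 : 0 < p := ha.trans_lt hp
  have hq0 : 0 < q := hp0.trans hpq
  obtain ⟨j1, hj1⟩ : ∃ j1 : ℕ, T0 ≤ 2 ^ j1 := by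
    obtain ⟨j1, hj⟩ := pow_unbounded_of_one_lt T0 (one_lt_two : (1 : ℝ) < 2)
    exact ⟨j1, hj.le⟩
  let ι := Σ r : ℕ × ℕ, {x : ℝ // x ∈ F ((2 : ℝ) ^ r.2)}
  let U : ι → Set ℝ := fun i => {α | j1 ≤ i.1.2 ∧ f i.1.1 p < 2 ^ (i.1.2 + 1) ∧ p < α ∧ α < q ∧
    (2 : ℝ) ^ i.1.2 ≤ f i.1.1 α ∧ (i.2 : ℝ) ≤ f i.1.1 α ∧
    f i.1.1 α ≤ (i.2 : ℝ) + ((2 : ℝ) ^ i.1.2) ^ θ}
  have hmono : ∀ n x y, a < x → x ≤ y → f n x ≤ f n y ∧ f n x * (y - x) ≤ x * (f n y - f n x) := by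
    intro n x y hx hxy
    obtain ⟨h1, h2⟩ := hf n x y hx hxy
    have hx0 : 0 < x := ha.trans_lt hx
    have hy0 : 0 < y := hx0.trans_le hxy
    rw [div_le_div_iff₀ hx0 hy0] at h2
    have h3 : f n x * (y - x) ≤ x * (f n y - f n x) := by nlinarith
    refine ⟨?_, h3⟩
    have h4 : 0 ≤ x * (f n y - f n x) := le_trans (mul_nonneg h1.le (by linarith)) h3
    have h5 := (mul_nonneg_iff_of_pos_left hx0).1 h4
    linarith
  refine Y856.hausdorff_cantelli (ι := ι) U s hs0 ?_ _ ?_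
  · -- the sum
    have hbound : ∀ i : ι, Metric.ediam (U i) ^ s ≤
        if j1 ≤ i.1.2 ∧ f i.1.1 p < 2 ^ (i.1.2 + 1) then
          ENNReal.ofReal ((q * (((2 : ℝ) ^ i.1.2) ^ θ / 2 ^ i.1.2)) ^ s) else 0 := by
      intro i
      split_ifs with hi
      · have h2j : (0 : ℝ) < 2 ^ i.1.2 := by positivity
        rw [← ENNReal.ofReal_rpow_of_nonneg (by positivity) hs0.le]
        apply ENNReal.rpow_le_rpow _ hs0.le
        have key : ∀ x ∈ U i, ∀ y ∈ U i, x ≤ y → y - x ≤ q * (((2 : ℝ) ^ i.1.2) ^ θ / 2 ^ i.1.2) := by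
          rintro x ⟨-, -, hx1, hx2, hx3, hx4, hx5⟩ y ⟨-, -, hy1, hy2, hy3, hy4, hy5⟩ hxy
          obtain ⟨h1, h2⟩ := hmono i.1.1 x y (hp.trans hx1) hxy
          have hx0 : 0 < x := hp0.trans hx1
          have h3 : (2 : ℝ) ^ i.1.2 * (y - x) ≤ q * ((2 : ℝ) ^ i.1.2) ^ θ := by
            calc (2 : ℝ) ^ i.1.2 * (y - x) ≤ f i.1.1 x * (y - x) :=
                  mul_le_mul_of_nonneg_right hx3 (by linarith)
              _ ≤ x * (f i.1.1 y - f i.1.1 x) := h2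
              _ ≤ q * (f i.1.1 y - f i.1.1 x) := mul_le_mul_of_nonneg_right hx2.le (by linarith)
              _ ≤ q * ((2 : ℝ) ^ i.1.2) ^ θ := mul_le_mul_of_nonneg_left (by linarith) hq0.le
          rw [← mul_div_assoc, le_div_iff₀ h2j]
          linarith
        apply Metric.ediam_le
        intro x hx y hy
        rw [edist_dist]
        apply ENNReal.ofReal_le_ofReal
        rw [Real.dist_eq]
        rcases le_total x y with h | h
        · rw [abs_sub_comm, abs_of_nonneg (by linarith)]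
          exact key x hx y hy h
        · rw [abs_of_nonneg (by linarith)]
          exact key y hy x hx h
      · have hUe : U i = ∅ := by
          apply Set.eq_empty_of_forall_notMem
          rintro α ⟨h1, h2, -⟩
          exact hi ⟨h1, h2⟩
        rw [hUe, Metric.ediam_empty, ENNReal.zero_rpow_of_pos hs0]
    refine ne_top_of_le_ne_top ?_ (ENNReal.tsum_le_tsum hbound)
    rw [ENNReal.tsum_sigma']
    have hbound2 : ∀ r : ℕ × ℕ, (∑' x : {x : ℝ // x ∈ F ((2 : ℝ) ^ r.2)},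
        (if j1 ≤ r.2 ∧ f r.1 p < 2 ^ (r.2 + 1) then
          ENNReal.ofReal ((q * (((2 : ℝ) ^ r.2) ^ θ / 2 ^ r.2)) ^ s) else 0)) ≤
        ENNReal.ofReal (q ^ s * 2 ^ δ) *
          (ENNReal.ofReal ((f r.1 p) ^ (-δ)) * ENNReal.ofReal (((2 : ℝ) ^ (-δ)) ^ r.2)) := by
      intro r
      split_ifs with hr
      · obtain ⟨hr1, hr2⟩ := hr
        rw [tsum_fintype, Finset.sum_const, Finset.card_univ, Fintype.card_coe, nsmul_eq_mul]
        have h2j : (0 : ℝ) < 2 ^ r.2 := by positivity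
        have hT : T0 ≤ (2 : ℝ) ^ r.2 := hj1.trans (pow_le_pow_right₀ one_le_two hr1)
        have hfp : 0 < f r.1 p := (hf r.1 p p hp le_rfl).1
        rw [← ENNReal.ofReal_mul (by positivity), ← ENNReal.ofReal_mul (by positivity)]
        have hcard : ((F ((2 : ℝ) ^ r.2)).card : ℝ≥0∞) =
            ENNReal.ofReal ((F ((2 : ℝ) ^ r.2)).card : ℝ) := by
          rw [ENNReal.ofReal_natCast]
        rw [hcard, ← ENNReal.ofReal_mul (by positivity)]
        apply ENNReal.ofReal_le_ofReal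
        calc ((F ((2 : ℝ) ^ r.2)).card : ℝ) * (q * (((2 : ℝ) ^ r.2) ^ θ / 2 ^ r.2)) ^ s
            ≤ ((2 : ℝ) ^ r.2) ^ (η + 2 * δ) * (q * (((2 : ℝ) ^ r.2) ^ θ / 2 ^ r.2)) ^ s :=
              mul_le_mul_of_nonneg_right (hFc _ hT) (by positivity)
          _ = q ^ s * (((2 : ℝ) ^ r.2) ^ (-δ) * ((2 : ℝ) ^ r.2) ^ (-δ)) := by
              rw [Real.mul_rpow hq0.le (by positivity)]
              have h1 : ((2 : ℝ) ^ r.2) ^ θ / 2 ^ r.2 = ((2 : ℝ) ^ r.2) ^ (θ - 1) := by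
                rw [Real.rpow_sub h2j, Real.rpow_one]
              rw [h1, ← Real.rpow_mul h2j.le, ← Real.rpow_add h2j, mul_left_comm,
                ← Real.rpow_add h2j]
              congr 2
              rw [hδ]
              ring
          _ ≤ q ^ s * ((f r.1 p / 2) ^ (-δ) * ((2 : ℝ) ^ r.2) ^ (-δ)) := by
              apply mul_le_mul_of_nonneg_left _ (by positivity)
              apply mul_le_mul_of_nonneg_right _ (by positivity)
              apply Real.rpow_le_rpow_of_nonpos (by positivity) _ (by linarith)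
              rw [pow_succ] at hr2
              linarith
          _ = q ^ s * 2 ^ δ * (f r.1 p ^ (-δ) * ((2 : ℝ) ^ (-δ)) ^ r.2) := by
              rw [Real.div_rpow hfp.le (by norm_num)]
              have h3 : (2 : ℝ) ^ (-δ) = (2 ^ δ)⁻¹ := Real.rpow_neg (by norm_num) δ
              have h4 : ((2 : ℝ) ^ r.2) ^ (-δ) = ((2 : ℝ) ^ (-δ)) ^ r.2 := by
                rw [← Real.rpow_natCast, ← Real.rpow_natCast, ← Real.rpow_mul (by norm_num),
                  ← Real.rpow_mul (by norm_num), mul_comm]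
              rw [h4, h3, div_inv_eq_mul]
              ring
      · rw [tsum_zero]
        exact bot_le
    refine ne_top_of_le_ne_top ?_ (ENNReal.tsum_le_tsum hbound2)
    rw [ENNReal.tsum_mul_left]
    apply ENNReal.mul_ne_top ENNReal.ofReal_ne_top
    rw [ENNReal.tsum_prod (f := fun n j => ENNReal.ofReal ((f n p) ^ (-δ)) *
      ENNReal.ofReal (((2 : ℝ) ^ (-δ)) ^ j))]
    simp_rw [ENNReal.tsum_mul_left]
    rw [ENNReal.tsum_mul_right]
    apply ENNReal.mul_ne_top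
    · exact (hs p hp δ hδ0).tsum_ofReal_ne_top
    · have : Summable fun j : ℕ => ((2 : ℝ) ^ (-δ)) ^ j := by
        apply summable_geometric_of_lt_one (by positivity)
        exact Real.rpow_lt_one_of_one_lt_of_neg (by norm_num) (by linarith)
      exact this.tsum_ofReal_ne_top
  · -- infinitely many
    rintro α ⟨hα1, hα2, hα⟩
    have h1 : ∀ᶠ n in atTop, (2 : ℝ) ^ (j1 + 1) ≤ f n p := by
      have h2 := (hs p hp 1 one_pos).tendsto_atTop_zero
      have h3 := h2.eventually (gt_mem_nhds (show (0 : ℝ) < ((2 : ℝ) ^ (j1 + 1))⁻¹ by positivity))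
      filter_upwards [h3] with n hn
      have hfp : 0 < f n p := (hf n p p hp le_rfl).1
      rw [Real.rpow_neg_one] at hn
      exact ((inv_lt_inv₀ hfp (by positivity)).1 hn).le
    have h2 := (hα.and_eventually h1)
    rw [Nat.frequently_atTop_iff_infinite] at h2
    apply Set.Infinite.of_image (fun i : ι => i.1.1)
    refine h2.mono ?_
    rintro n ⟨hn1, hn2⟩
    obtain ⟨h3, -⟩ := hmono n p α hp hα1.le
    have h4 : (1 : ℝ) ≤ f n α := by
      have : (1 : ℝ) ≤ 2 ^ (j1 + 1) := one_le_pow₀ (by norm_num)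
      linarith
    obtain ⟨j, hj2, hj3⟩ := exists_nat_pow_near h4 (one_lt_two : (1 : ℝ) < 2)
    have h5 : j1 ≤ j := by
      have h6 : (2 : ℝ) ^ (j1 + 1) < 2 ^ (j + 1) := by linarith
      have h7 := (pow_lt_pow_iff_right₀ (one_lt_two : (1 : ℝ) < 2)).1 h6
      omega
    have hT : T0 ≤ (2 : ℝ) ^ j := hj1.trans (pow_le_pow_right₀ one_le_two h5)
    obtain ⟨x, hxF, hx1, hx2⟩ := hF _ hT (f n α) hn1 hj2 (by rw [pow_succ] at hj3; linarith)
    exact ⟨⟨(n, j), ⟨x, hxF⟩⟩, ⟨h5, lt_of_le_of_lt h3 hj3, hα1, hα2, hj2, hx1, hx2⟩, rfl⟩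

theorem t_DIM : S_DIM := by
  intro θ η E hθ hθ1 hη hE a f ha hf hs
  have h1θ : 0 < 1 - θ := by linarith
  have hr0 : 0 ≤ η / (1 - θ) := by positivity
  apply le_of_forall_gt_imp_ge_of_dense
  intro c hc
  rcases eq_or_ne c ∞ with rfl | hctop
  · exact le_top
  obtain ⟨s, rfl⟩ : ∃ s : NNReal, (s : ℝ≥0∞) = c := ⟨c.toNNReal, ENNReal.coe_toNNReal hctop⟩
  have hs1 : η / (1 - θ) < s := by
    rw [ENNReal.ofReal_lt_iff_lt_toReal hr0 hctop] at hc
    simpa using hc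
  have hs0 : (0 : ℝ) < s := lt_of_le_of_lt hr0 hs1
  have hs2 : η < s * (1 - θ) := by rwa [div_lt_iff₀ h1θ] at hs1
  have hsub : {α : ℝ | a < α ∧ ∃ᶠ n in atTop, f n α ∈ E} ⊆
      ⋃ k : ℕ, {α : ℝ | a + 1 / ((k : ℝ) + 1) < α ∧ α < a + k + 2 ∧ ∃ᶠ n in atTop, f n α ∈ E} := by
    rintro α ⟨h1, h2⟩
    obtain ⟨k1, hk1⟩ := exists_nat_one_div_lt (sub_pos.2 h1)
    obtain ⟨k2, hk2⟩ := exists_nat_gt (α - a)
    rw [Set.mem_iUnion]
    refine ⟨max k1 k2, ?_, ?_, h2⟩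
    · have h3 : 1 / (((max k1 k2 : ℕ) : ℝ) + 1) ≤ 1 / ((k1 : ℝ) + 1) := by
        apply one_div_le_one_div_of_le (by positivity)
        have : (k1 : ℝ) ≤ ((max k1 k2 : ℕ) : ℝ) := by exact_mod_cast le_max_left _ _
        linarith
      linarith
    · have : (k2 : ℝ) ≤ ((max k1 k2 : ℕ) : ℝ) := by exact_mod_cast le_max_right _ _
      linarith
  refine (dimH_mono hsub).trans ?_
  rw [dimH_iUnion]
  apply iSup_le
  intro k
  apply dimH_le_of_hausdorffMeasure_ne_top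
  have hk : (0 : ℝ) < 1 / ((k : ℝ) + 1) := by positivity
  have hk1 : 1 / ((k : ℝ) + 1) ≤ 1 := by
    rw [div_le_one (by positivity)]
    have : (0 : ℝ) ≤ k := Nat.cast_nonneg k
    linarith
  have hkk : (0 : ℝ) ≤ k := Nat.cast_nonneg k
  exact dim_aux θ η E hθ hθ1 hη hE a f ha hf hs s hs0 hs2 _ _ (by linarith) (by linarith)

end Pool.Agent.T3H29.EI
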