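import Pool.Agent.T3H29.EI.Stm

/-! Task SEQ: the powers `m^κ` in a thin set (helper55). -/

set_option autoImplicit false

namespace Pool.Agent.T3H29.EI

open MeasureTheory Filter Topology
open scoped ENNReal

namespace SEQ

theorem diff_lower {κ : ℝ} (hκ : 1 ≤ κ) {T : ℝ} (hT : 1 ≤ T) {a b : ℕ} (ha : 1 ≤ a) (hab : a ≤ b)
    (haT : T ≤ (a : ℝ) ^ κ) : T ^ (1 - 1 / κ) * ((b : ℝ) - a) ≤ (b : ℝ) ^ κ - (a : ℝ) ^ κ := by
  have ha' : (0 : ℝ) < a := by exact_mod_cast ha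
  have hb' : (0 : ℝ) < b := by exact_mod_cast (ha.trans hab)
  have hab' : (a : ℝ) ≤ b := by exact_mod_cast hab
  have hκ0 : 0 < κ := by linarith
  have h1 : (a : ℝ) ^ κ = (a : ℝ) ^ (κ - 1) * a := by
    rw [← Real.rpow_add_one ha'.ne']
    congr 1
    ring
  have h2 : (b : ℝ) ^ κ = (b : ℝ) ^ (κ - 1) * b := by
    rw [← Real.rpow_add_one hb'.ne']
    congr 1
    ring
  have h3 : (a : ℝ) ^ (κ - 1) ≤ (b : ℝ) ^ (κ - 1) := Real.rpow_le_rpow ha'.le hab' (by linarith)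
  have h4 : T ^ (1 - 1 / κ) ≤ (a : ℝ) ^ (κ - 1) := by
    have h5 : (a : ℝ) ^ (κ - 1) = ((a : ℝ) ^ κ) ^ (1 - 1 / κ) := by
      rw [← Real.rpow_mul ha'.le]
      congr 1
      field_simp
    rw [h5]
    refine Real.rpow_le_rpow (by linarith) haT ?_
    have : 1 / κ ≤ 1 := by rw [div_le_one hκ0]; exact hκ
    linarith
  have h6 : (b : ℝ) ^ κ - (a : ℝ) ^ κ ≥ (a : ℝ) ^ (κ - 1) * ((b : ℝ) - a) := by
    rw [h1, h2]
    nlinarith [mul_le_mul_of_nonneg_right h3 hb'.le]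
  have h7 : T ^ (1 - 1 / κ) * ((b : ℝ) - a) ≤ (a : ℝ) ^ (κ - 1) * ((b : ℝ) - a) :=
    mul_le_mul_of_nonneg_right h4 (by linarith)
  linarith

theorem count_interval {κ θ : ℝ} (hκ : 1 ≤ κ) {T : ℝ} (hT : 1 ≤ T) (x : ℝ) (S : Finset ℕ)
    (hS : ∀ m ∈ S, 1 ≤ m ∧ T ≤ (m : ℝ) ^ κ ∧ x ≤ (m : ℝ) ^ κ ∧ (m : ℝ) ^ κ ≤ x + T ^ θ) :
    (S.card : ℝ) ≤ 1 + T ^ (θ - 1 + 1 / κ) := by
  have hT0 : 0 < T := by linarith
  rcases S.eq_empty_or_nonempty with h0 | hne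
  · rw [h0]
    simp only [Finset.card_empty, Nat.cast_zero]
    positivity
  set a := S.min' hne with ha
  set b := S.max' hne with hb
  have haS : a ∈ S := S.min'_mem hne
  have hbS : b ∈ S := S.max'_mem hne
  have hab : a ≤ b := S.min'_le b hbS
  have hsub : S ⊆ Finset.Icc a b := fun m hm => Finset.mem_Icc.2 ⟨S.min'_le m hm, S.le_max' m hm⟩
  have hcard : S.card ≤ b + 1 - a := by
    have := Finset.card_le_card hsub
    rwa [Nat.card_Icc] at this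
  have hcard' : (S.card : ℝ) ≤ 1 + ((b : ℝ) - a) := by
    have h1 : (S.card : ℝ) ≤ ((b + 1 - a : ℕ) : ℝ) := by exact_mod_cast hcard
    rw [Nat.cast_sub (by omega)] at h1
    push_cast at h1
    linarith
  have h2 := diff_lower hκ hT (hS a haS).1 hab (hS a haS).2.1
  have h3 : (b : ℝ) ^ κ - (a : ℝ) ^ κ ≤ T ^ θ := by
    have := (hS a haS).2.2.1
    have := (hS b hbS).2.2.2
    linarith
  have h4 : (b : ℝ) - a ≤ T ^ (θ - 1 + 1 / κ) := by
    have h5 : T ^ (θ - 1 + 1 / κ) = T ^ θ / T ^ (1 - 1 / κ) := by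
      rw [← Real.rpow_sub hT0]
      congr 1
      ring
    rw [h5, le_div_iff₀ (Real.rpow_pos_of_pos hT0 _), mul_comm]
    linarith
  linarith

open scoped Classical in
theorem count_block {κ θ : ℝ} (hκ : 1 ≤ κ) {T : ℝ} (hT : 1 ≤ T) (E : Set ℝ) (F : Finset ℝ)
    (hF : ∀ t ∈ E, T ≤ t → t ≤ 2 * T → ∃ x ∈ F, x ≤ t ∧ t ≤ x + T ^ θ) (S : Finset ℕ)
    (hS : ∀ m ∈ S, 1 ≤ m ∧ (m : ℝ) ^ κ ∈ E ∧ T ≤ (m : ℝ) ^ κ ∧ (m : ℝ) ^ κ ≤ 2 * T) :
    (S.card : ℝ) ≤ F.card * (1 + T ^ (θ - 1 + 1 / κ)) := by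
  have hsub : S ⊆ F.biUnion (fun x => S.filter (fun m : ℕ => x ≤ (m : ℝ) ^ κ ∧ (m : ℝ) ^ κ ≤ x + T ^ θ)) := by
    intro m hm
    obtain ⟨h1, h2, h3, h4⟩ := hS m hm
    obtain ⟨x, hx, h5, h6⟩ := hF _ h2 h3 h4
    exact Finset.mem_biUnion.2 ⟨x, hx, Finset.mem_filter.2 ⟨hm, h5, h6⟩⟩
  have h1 : S.card ≤ ∑ x ∈ F, (S.filter (fun m : ℕ => x ≤ (m : ℝ) ^ κ ∧ (m : ℝ) ^ κ ≤ x + T ^ θ)).card :=
    (Finset.card_le_card hsub).trans Finset.card_biUnion_le
  have h2 : (S.card : ℝ) ≤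
      ∑ x ∈ F, ((S.filter (fun m : ℕ => x ≤ (m : ℝ) ^ κ ∧ (m : ℝ) ^ κ ≤ x + T ^ θ)).card : ℝ) := by
    exact_mod_cast h1
  refine h2.trans ?_
  calc ∑ x ∈ F, ((S.filter (fun m : ℕ => x ≤ (m : ℝ) ^ κ ∧ (m : ℝ) ^ κ ≤ x + T ^ θ)).card : ℝ)
      ≤ ∑ x ∈ F, (1 + T ^ (θ - 1 + 1 / κ)) := by
        refine Finset.sum_le_sum fun x _ => ?_
        refine count_interval hκ hT x _ fun m hm => ?_
        obtain ⟨h3, h4, h5⟩ := Finset.mem_filter.1 hm
        obtain ⟨h6, _, h7, _⟩ := hS m h3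
        exact ⟨h6, h7, h4, h5⟩
    _ = _ := by rw [Finset.sum_const, nsmul_eq_mul]

end SEQ

open SEQ

open scoped Classical in
theorem t_SEQ : S_SEQ := by
  intro θ η E hθ0 hθ1 hη hthin κ hκ hκη hηθ
  have hκ0 : 0 < κ := by linarith
  -- the exponents
  obtain ⟨e, he0, he1, he2⟩ : ∃ e : ℝ, 0 < e ∧ κ * η ≤ 1 - e ∧ κ * (η + θ - 1) + 1 ≤ 1 - e := by
    refine ⟨min (1 - κ * η) (κ * (1 - θ - η)), lt_min (by linarith) (mul_pos hκ0 (by linarith)), ?_, ?_⟩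
    · have := min_le_left (1 - κ * η) (κ * (1 - θ - η))
      linarith
    · have := min_le_right (1 - κ * η) (κ * (1 - θ - η))
      nlinarith
  have he3 : e ≤ 1 := by nlinarith [mul_nonneg hκ0.le hη]
  set ε : ℝ := e / (4 * κ) with hε
  have hε0 : 0 < ε := by positivity
  have hκε : κ * ε = e / 4 := by rw [hε]; field_simp
  obtain ⟨T0, hT0⟩ := hthin ε hε0
  obtain ⟨j1, hj1⟩ : ∃ j1 : ℕ, T0 ≤ 2 ^ j1 := by
    obtain ⟨n, hn⟩ := pow_unbounded_of_one_lt T0 (by norm_num : (1 : ℝ) < 2)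
    exact ⟨n, hn.le⟩
  set K : ℝ := κ / ((e / 8) * Real.log 2) with hK
  have hlog2 : 0 < Real.log 2 := Real.log_pos (by norm_num)
  have hK0 : 0 ≤ K := by positivity
  have hlarge : ∀ᶠ M : ℕ in atTop, (2 : ℝ) ^ j1 + 2 * (K + 1) ≤ (M : ℝ) ^ (3 * e / 8) := by
    have h1 : Tendsto (fun M : ℕ => (M : ℝ) ^ (3 * e / 8)) atTop atTop :=
      (tendsto_rpow_atTop (by positivity)).comp tendsto_natCast_atTop_atTop
    exact h1.eventually_ge_atTop _
  obtain ⟨M0, hM0⟩ := eventually_atTop.1 (hlarge.and (eventually_ge_atTop 1))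
  refine ⟨e / 4, M0, by positivity, fun M hM => ?_⟩
  have hM' : M0 ≤ M := by exact_mod_cast hM
  obtain ⟨hbig, hM1⟩ := hM0 M hM'
  have hM1' : (1 : ℝ) ≤ M := by exact_mod_cast hM1
  have hMpos : (0 : ℝ) < M := by linarith
  set S : Finset ℕ := (Finset.Icc 1 M).filter (fun m : ℕ => (m : ℝ) ^ κ ∈ E) with hS
  set J : ℕ := ⌊κ * Real.logb 2 M⌋₊ with hJ
  have hlogM : 0 ≤ Real.logb 2 M := Real.logb_nonneg (by norm_num) hM1'
  have hJle : (J : ℝ) ≤ K * (M : ℝ) ^ (e / 8) := by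
    have h1 : (J : ℝ) ≤ κ * Real.logb 2 M := Nat.floor_le (mul_nonneg hκ0.le hlogM)
    have h2 : Real.log M ≤ (M : ℝ) ^ (e / 8) / (e / 8) := Real.log_le_rpow_div hMpos.le (by positivity)
    have h3 : κ * Real.logb 2 M ≤ K * (M : ℝ) ^ (e / 8) := by
      rw [Real.logb, hK]
      calc κ * (Real.log M / Real.log 2) ≤ κ * ((M : ℝ) ^ (e / 8) / (e / 8) / Real.log 2) := by
            gcongr
        _ = _ := by field_simp
    linarith
  -- dyadic blocks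
  set A : ℕ → Finset ℕ := fun j => S.filter (fun m : ℕ => (2 : ℝ) ^ j ≤ (m : ℝ) ^ κ ∧ (m : ℝ) ^ κ ≤ 2 * 2 ^ j) with hA
  have hsub : S ⊆ Finset.range (2 ^ j1) ∪ ((Finset.range (J + 1)).filter (fun j => j1 ≤ j)).biUnion A := by
    intro m hm
    obtain ⟨hmI, hmE⟩ := Finset.mem_filter.1 hm
    obtain ⟨hm1, hmM⟩ := Finset.mem_Icc.1 hmI
    have hm1' : (1 : ℝ) ≤ m := by exact_mod_cast hm1
    have hmκ : (m : ℝ) ≤ (m : ℝ) ^ κ := by
      calc (m : ℝ) = (m : ℝ) ^ (1 : ℝ) := (Real.rpow_one _).symm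
        _ ≤ (m : ℝ) ^ κ := Real.rpow_le_rpow_of_exponent_le hm1' hκ
    rw [Finset.mem_union]
    by_cases hlow : (m : ℝ) ^ κ < 2 ^ j1
    · left
      rw [Finset.mem_range]
      have : (m : ℝ) < ((2 ^ j1 : ℕ) : ℝ) := by push_cast; linarith
      exact_mod_cast this
    · right
      push Not at hlow
      obtain ⟨j, hj1', hj2'⟩ := exists_nat_pow_near (hm1'.trans hmκ) (by norm_num : (1 : ℝ) < 2)
      rw [Finset.mem_biUnion]
      refine ⟨j, ?_, ?_⟩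
      · rw [Finset.mem_filter, Finset.mem_range]
        constructor
        · have h1 : (2 : ℝ) ^ j ≤ (M : ℝ) ^ κ := hj1'.trans
            (Real.rpow_le_rpow (by linarith) (by exact_mod_cast hmM) hκ0.le)
          have h2 : (j : ℝ) ≤ κ * Real.logb 2 M := by
            have h3 := Real.logb_le_logb_of_le (by norm_num : (1 : ℝ) < 2) (by positivity) h1
            rw [Real.logb_pow, Real.logb_self_eq_one (by norm_num), mul_one, Real.logb_rpow_eq_mul_logb_of_pos hMpos] at h3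
            exact h3
          have h4 : j ≤ J := Nat.le_floor h2
          omega
        · by_contra hcon
          push Not at hcon
          have h1 : (2 : ℝ) ^ (j + 1) ≤ 2 ^ j1 := pow_le_pow_right₀ (by norm_num) (by omega)
          linarith
      · rw [hA]
        simp only
        rw [Finset.mem_filter]
        refine ⟨hm, hj1', ?_⟩
        rw [pow_succ] at hj2'
        linarith
  have hblock : ∀ j ∈ (Finset.range (J + 1)).filter (fun j => j1 ≤ j),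
      ((A j).card : ℝ) ≤ 2 * (M : ℝ) ^ (1 - 3 * e / 4) := by
    intro j hj
    obtain ⟨hjJ, hjj⟩ := Finset.mem_filter.1 hj
    rw [Finset.mem_range] at hjJ
    set T : ℝ := 2 ^ j with hT
    have hT1 : 1 ≤ T := one_le_pow₀ (by norm_num)
    have hTpos : 0 < T := by linarith
    have hTT0 : T0 ≤ T := hj1.trans (pow_le_pow_right₀ (by norm_num) hjj)
    obtain ⟨F, hFc, hF⟩ := hT0 T hTT0
    have h1 := count_block (κ := κ) (θ := θ) hκ hT1 E F hF (A j) (fun m hm => by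
      obtain ⟨h2, h3, h4⟩ := Finset.mem_filter.1 hm
      obtain ⟨h5, h6⟩ := Finset.mem_filter.1 h2
      exact ⟨(Finset.mem_Icc.1 h5).1, h6, h3, h4⟩)
    have hTM : T ≤ (M : ℝ) ^ κ := by
      have h2 : (j : ℝ) ≤ κ * Real.logb 2 M := by
        have h3 : (j : ℝ) ≤ J := by exact_mod_cast (by omega : j ≤ J)
        exact h3.trans (Nat.floor_le (mul_nonneg hκ0.le hlogM))
      calc T = (2 : ℝ) ^ (j : ℝ) := by rw [hT, Real.rpow_natCast]
        _ ≤ (2 : ℝ) ^ (κ * Real.logb 2 M) := Real.rpow_le_rpow_of_exponent_le (by norm_num) h2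
        _ = (M : ℝ) ^ κ := by
            rw [mul_comm, Real.rpow_mul (by norm_num), Real.rpow_logb (by norm_num) (by norm_num) hMpos]
    have hpow : ∀ s : ℝ, κ * s ≤ 1 - 3 * e / 4 → T ^ s ≤ (M : ℝ) ^ (1 - 3 * e / 4) := by
      intro s hs
      rcases le_or_gt 0 s with hs0 | hs0
      · calc T ^ s ≤ ((M : ℝ) ^ κ) ^ s := Real.rpow_le_rpow hTpos.le hTM hs0
          _ = (M : ℝ) ^ (κ * s) := by rw [← Real.rpow_mul hMpos.le]
          _ ≤ _ := Real.rpow_le_rpow_of_exponent_le hM1' hs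
      · calc T ^ s ≤ 1 := Real.rpow_le_one_of_one_le_of_nonpos hT1 hs0.le
          _ ≤ _ := Real.one_le_rpow hM1' (by linarith)
    calc ((A j).card : ℝ) ≤ F.card * (1 + T ^ (θ - 1 + 1 / κ)) := h1
      _ ≤ T ^ (η + ε) * (1 + T ^ (θ - 1 + 1 / κ)) := by
          refine mul_le_mul_of_nonneg_right hFc ?_
          positivity
      _ = T ^ (η + ε) + T ^ (η + ε + (θ - 1 + 1 / κ)) := by
          rw [mul_add, mul_one, ← Real.rpow_add hTpos]
      _ ≤ (M : ℝ) ^ (1 - 3 * e / 4) + (M : ℝ) ^ (1 - 3 * e / 4) := by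
          refine add_le_add (hpow _ ?_) (hpow _ ?_)
          · rw [mul_add, hκε]
            linarith
          · have h2 : κ * (η + ε + (θ - 1 + 1 / κ)) = κ * (η + θ - 1) + 1 + κ * ε := by
              field_simp
              ring
            rw [h2, hκε]
            linarith
      _ = _ := by ring
  have hcard : (S.card : ℝ) ≤ (2 : ℝ) ^ j1 + (J + 1) * (2 * (M : ℝ) ^ (1 - 3 * e / 4)) := by
    have h1 : S.card ≤ 2 ^ j1 + ∑ j ∈ (Finset.range (J + 1)).filter (fun j => j1 ≤ j), (A j).card := by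
      refine (Finset.card_le_card hsub).trans ((Finset.card_union_le _ _).trans ?_)
      rw [Finset.card_range]
      exact Nat.add_le_add_left Finset.card_biUnion_le _
    have h2 : (S.card : ℝ) ≤ (2 : ℝ) ^ j1 +
        ∑ j ∈ (Finset.range (J + 1)).filter (fun j => j1 ≤ j), ((A j).card : ℝ) := by
      exact_mod_cast h1
    refine h2.trans (add_le_add le_rfl ?_)
    refine (Finset.sum_le_sum hblock).trans ?_
    rw [Finset.sum_const, nsmul_eq_mul]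
    refine mul_le_mul_of_nonneg_right ?_ (by positivity)
    have h3 : ((Finset.range (J + 1)).filter (fun j => j1 ≤ j)).card ≤ J + 1 := by
      refine (Finset.card_filter_le _ _).trans ?_
      rw [Finset.card_range]
    exact_mod_cast h3
  have hMe : (1 : ℝ) ≤ (M : ℝ) ^ (e / 8) := Real.one_le_rpow hM1' (by positivity)
  have hJ1 : (J : ℝ) + 1 ≤ (K + 1) * (M : ℝ) ^ (e / 8) := by
    rw [add_mul, one_mul]
    linarith
  have hM5 : (1 : ℝ) ≤ (M : ℝ) ^ (1 - 5 * e / 8) := Real.one_le_rpow hM1' (by linarith)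
  have hfin : (2 : ℝ) ^ j1 + (J + 1) * (2 * (M : ℝ) ^ (1 - 3 * e / 4)) ≤
      (2 ^ j1 + 2 * (K + 1)) * (M : ℝ) ^ (1 - 5 * e / 8) := by
    have h1 : ((J : ℝ) + 1) * (2 * (M : ℝ) ^ (1 - 3 * e / 4)) ≤
        ((K + 1) * (M : ℝ) ^ (e / 8)) * (2 * (M : ℝ) ^ (1 - 3 * e / 4)) :=
      mul_le_mul_of_nonneg_right hJ1 (by positivity)
    have h2 : (M : ℝ) ^ (e / 8) * (M : ℝ) ^ (1 - 3 * e / 4) = (M : ℝ) ^ (1 - 5 * e / 8) := by
      rw [← Real.rpow_add hMpos]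
      congr 1
      ring
    have h3 : ((K + 1) * (M : ℝ) ^ (e / 8)) * (2 * (M : ℝ) ^ (1 - 3 * e / 4)) =
        2 * (K + 1) * (M : ℝ) ^ (1 - 5 * e / 8) := by
      rw [← h2]
      ring
    have h4 : (2 : ℝ) ^ j1 ≤ 2 ^ j1 * (M : ℝ) ^ (1 - 5 * e / 8) := le_mul_of_one_le_right (by positivity) hM5
    rw [h3] at h1
    rw [add_mul]
    linarith
  calc (S.card : ℝ) ≤ (2 ^ j1 + 2 * (K + 1)) * (M : ℝ) ^ (1 - 5 * e / 8) := hcard.trans hfin
    _ ≤ (M : ℝ) ^ (3 * e / 8) * (M : ℝ) ^ (1 - 5 * e / 8) := mul_le_mul_of_nonneg_right hbig (by positivity)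
    _ = (M : ℝ) ^ (1 - e / 4) := by
        rw [← Real.rpow_add hMpos]
        congr 1
        ring

end Pool.Agent.T3H29.EI
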