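import Pool.Agent.T3H29.EI.Scale

/-! The exceptional intervals: covering. -/

set_option autoImplicit false

namespace Pool.Agent.T3H29.EI

open Filter Topology Set MeasureTheory
open SG hiding dd nn Sep cc

/-- `[t, t + t^θ]` contains no two consecutive ordinates at distance less than `c` times the mean spacing -/
def Exc (c θ : ℝ) : Set ℝ :=
  {t : ℝ | ¬ ∃ n : ℕ, 1 ≤ n ∧ t ≤ ord n ∧ ord (n + 1) ≤ t + t ^ θ ∧
    ord (n + 1) - ord n < c * (2 * Real.pi / Real.log (ord n))}

/-- packing in one parity class -/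
theorem packing {H V T : ℝ} (hH : 0 < H) (hV : 0 ≤ V) (S : Set ℝ) (hS : volume S ≤ ENNReal.ofReal V)
    (X : Finset ℕ) (τ : ℕ → ℝ) (r : ℕ) (h1 : ∀ j ∈ X, T + j * H ≤ τ j ∧ τ j < T + (j + 1) * H)
    (h2 : ∀ j ∈ X, Icc (τ j + H / 4) (τ j + 3 * H / 4) ⊆ S) :
    (((X.filter (fun j => j % 2 = r)).card : ℕ) : ℝ) * (H / 2) ≤ V := by
  set Y := X.filter (fun j => j % 2 = r) with hY
  have hdis : (Y : Set ℕ).PairwiseDisjoint (fun j => Icc (τ j + H / 4) (τ j + 3 * H / 4)) := by
    have key : ∀ j ∈ Y, ∀ j' ∈ Y, j < j' → Disjoint (Icc (τ j + H / 4) (τ j + 3 * H / 4))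
        (Icc (τ j' + H / 4) (τ j' + 3 * H / 4)) := by
      intro j hj j' hj' hlt
      rw [hY, Finset.mem_filter] at hj hj'
      have h3 : j + 2 ≤ j' := by omega
      have h4 : (j : ℝ) + 2 ≤ j' := by exact_mod_cast h3
      rw [Set.disjoint_left]
      intro y hy hy'
      have a1 := (h1 j hj.1).2
      have a2 := (h1 j' hj'.1).1
      have a3 := hy.2
      have a4 := hy'.1
      have h5 : ((j : ℝ) + 2) * H ≤ j' * H := mul_le_mul_of_nonneg_right h4 hH.le
      nlinarith
    intro j hj j' hj' hne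
    rcases lt_or_gt_of_ne hne with h | h
    · exact key j hj j' hj' h
    · exact (key j' hj' j hj h).symm
  have hsum : ∑ j ∈ Y, volume (Icc (τ j + H / 4) (τ j + 3 * H / 4)) ≤ ENNReal.ofReal V := by
    rw [← measure_biUnion_finset hdis (fun j _ => measurableSet_Icc)]
    refine (measure_mono ?_).trans hS
    apply Set.iUnion₂_subset
    intro j hj
    rw [hY, Finset.mem_filter] at hj
    exact h2 j hj.1
  have hv : ∀ j ∈ Y, volume (Icc (τ j + H / 4) (τ j + 3 * H / 4)) = ENNReal.ofReal (H / 2) := by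
    intro j _
    rw [Real.volume_Icc]
    congr 1
    ring
  rw [Finset.sum_congr rfl hv, Finset.sum_const, nsmul_eq_mul, ← ENNReal.ofReal_natCast,
    ← ENNReal.ofReal_mul (Nat.cast_nonneg _)] at hsum
  exact (ENNReal.ofReal_le_ofReal_iff hV).1 hsum

/-- **the exceptional intervals** -/
theorem thin (c θ : ℝ) (hc : 1 / 2 < c) (hθ : 0 < θ) (hθ1 : θ < 1) :
    Thin θ (max (max 1 (2 / c - 2) - 2 * θ) 0) (Exc c θ) := by
  classical
  intro ε hε
  obtain ⟨T1, hT1⟩ := main_scale c θ (ε / 2) hc hθ hθ1 (half_pos hε)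
  have hc0 : 0 < c := by linarith
  have ev1 : ∀ᶠ T : ℝ in atTop, 5 ≤ T ^ (ε / 2) := (tendsto_rpow_atTop (half_pos hε)).eventually_ge_atTop 5
  obtain ⟨T2, hT2⟩ := eventually_atTop.1 (ev1.and (eventually_ge_atTop (max T1 2)))
  refine ⟨T2, fun T hT => ?_⟩
  obtain ⟨g1, g2⟩ := hT2 T hT
  have hTT1 : T1 ≤ T := (le_max_left _ _).trans g2
  have hT2' : 2 ≤ T := (le_max_right _ _).trans g2
  have hTpos : 0 < T := by linarith
  have hT1' : 1 ≤ T := by linarith
  obtain ⟨S, hS1, hS2⟩ := hT1 T hTT1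
  obtain ⟨H, hH⟩ : ∃ H : ℝ, H = T ^ θ := ⟨_, rfl⟩
  have hHpos : 0 < H := by rw [hH]; positivity
  rw [← hH] at hS2
  obtain ⟨m, hm⟩ : ∃ m : ℝ, m = max 1 (2 / c - 2) := ⟨_, rfl⟩
  rw [← hm] at hS1 ⊢
  set V : ℝ := T ^ (m - θ + ε / 2) with hV
  have hV0 : 0 ≤ V := by positivity
  set X : Finset ℕ := (Finset.range (⌊T / H⌋₊ + 1)).filter (fun j : ℕ => ∃ t ∈ Exc c θ, T + j * H ≤ t ∧
    t < T + (j + 1) * H ∧ t + H ≤ 2 * T) with hX
  have hex : ∀ j : ℕ, ∃ t : ℝ, j ∈ X → t ∈ Exc c θ ∧ T + j * H ≤ t ∧ t < T + (j + 1) * H ∧ t + H ≤ 2 * T := by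
    intro j
    by_cases hj : j ∈ X
    · obtain ⟨t, ht, h1, h2, h3⟩ := (Finset.mem_filter.1 hj).2
      exact ⟨t, fun _ => ⟨ht, h1, h2, h3⟩⟩
    · exact ⟨0, fun h => absurd h hj⟩
  choose τ hτ using hex
  have hsub : ∀ j ∈ X, Icc (τ j + H / 4) (τ j + 3 * H / 4) ⊆ S := by
    intro j hj y hy
    obtain ⟨a1, a2, a3, a4⟩ := hτ j hj
    by_contra hyS
    have hjH : 0 ≤ (j : ℝ) * H := by positivity
    have hTτ : T ≤ τ j := by linarith
    have hτ2 : τ j ≤ 2 * T := by linarith
    obtain ⟨n, hn, b1, b2, b3⟩ := hS2 (y - H / 4) (by linarith [hy.1]) (by linarith [hy.2]) (by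
      have : y - H / 4 + H / 4 = y := by ring
      rw [this]; exact hyS)
    apply a1
    refine ⟨n, hn, by linarith [hy.1], ?_, ?_⟩
    · have h5 : H ≤ τ j ^ θ := by
        rw [hH]; exact Real.rpow_le_rpow hTpos.le hTτ hθ.le
      linarith [hy.2]
    · have h6 : ord n ≤ ord (n + 1) := SG.ord_mono hn (by omega)
      refine lt_of_lt_of_le b3 ?_
      apply mul_le_mul_of_nonneg_left _ hc0.le
      apply div_le_div_of_nonneg_left (by positivity) (Real.log_pos (by linarith [hy.1]))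
      exact Real.log_le_log (by linarith [hy.1]) (by linarith [hy.2])
  have hpack : ∀ r : ℕ, (((X.filter (fun j => j % 2 = r)).card : ℕ) : ℝ) * (H / 2) ≤ V := fun r =>
    packing (T := T) hHpos hV0 S hS1 X τ r (fun j hj => ⟨(hτ j hj).2.1, (hτ j hj).2.2.1⟩) hsub
  have hXcard : (X.card : ℝ) * H ≤ 4 * V := by
    have h3 : X.card = (X.filter (fun j => j % 2 = 0)).card + (X.filter (fun j => j % 2 = 1)).card := by
      rw [← Finset.card_union_of_disjoint]
      · congr 1
        ext j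
        simp only [Finset.mem_union, Finset.mem_filter]
        constructor
        · intro hj
          rcases Nat.mod_two_eq_zero_or_one j with h | h
          · exact Or.inl ⟨hj, h⟩
          · exact Or.inr ⟨hj, h⟩
        · rintro (h | h)
          · exact h.1
          · exact h.1
      · rw [Finset.disjoint_left]
        intro j h4 h5
        have h6 := (Finset.mem_filter.1 h4).2
        have h7 := (Finset.mem_filter.1 h5).2
        omega
    have h4 := hpack 0
    have h5 := hpack 1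
    rw [h3]
    push_cast
    linarith
  refine ⟨insert (2 * T - H) (X.image (fun j : ℕ => T + j * H)), ?_, ?_⟩
  · have h3 : ((insert (2 * T - H) (X.image (fun j : ℕ => T + j * H))).card : ℝ) ≤ X.card + 1 := by
      have h4 := Finset.card_insert_le (2 * T - H) (X.image (fun j : ℕ => T + j * H))
      have h5 : (X.image (fun j : ℕ => T + j * H)).card ≤ X.card := Finset.card_image_le
      have h6 : (insert (2 * T - H) (X.image (fun j : ℕ => T + j * H))).card ≤ X.card + 1 := by omega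
      exact_mod_cast h6
    have hVH : V / H = T ^ (m - 2 * θ + ε / 2) := by
      rw [hV, hH, ← Real.rpow_sub hTpos]
      congr 1
      ring
    have h4 : (X.card : ℝ) ≤ 4 * T ^ (m - 2 * θ + ε / 2) := by
      rw [← hVH, ← mul_div_assoc, le_div_iff₀ hHpos]
      exact hXcard
    obtain ⟨η, hη⟩ : ∃ η : ℝ, η = max (m - 2 * θ) 0 := ⟨_, rfl⟩
    rw [← hη]
    have h5 : T ^ (m - 2 * θ + ε / 2) ≤ T ^ (η + ε / 2) :=
      Real.rpow_le_rpow_of_exponent_le hT1' (by
        have : m - 2 * θ ≤ η := hη ▸ le_max_left _ _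
        linarith)
    have h6 : (1 : ℝ) ≤ T ^ (η + ε / 2) := by
      apply Real.one_le_rpow hT1'
      have : 0 ≤ η := hη ▸ le_max_right _ _
      linarith
    calc ((insert (2 * T - H) (X.image (fun j : ℕ => T + j * H))).card : ℝ) ≤ X.card + 1 := h3
      _ ≤ T ^ (η + ε / 2) * 5 := by linarith
      _ ≤ T ^ (η + ε / 2) * T ^ (ε / 2) := mul_le_mul_of_nonneg_left g1 (by positivity)
      _ = T ^ (η + ε) := by
        rw [← Real.rpow_add hTpos]
        congr 1
        ring
  · intro t ht h3 h4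
    rw [← hH]
    by_cases h5 : t + H ≤ 2 * T
    · have h6 : 0 ≤ (t - T) / H := div_nonneg (by linarith) hHpos.le
      have h7 := Nat.floor_le h6
      have h8 := Nat.lt_floor_add_one ((t - T) / H)
      rw [le_div_iff₀ hHpos] at h7
      rw [div_lt_iff₀ hHpos] at h8
      refine ⟨T + (⌊(t - T) / H⌋₊ : ℝ) * H, ?_, by linarith, by linarith⟩
      rw [Finset.mem_insert, Finset.mem_image]
      right
      refine ⟨⌊(t - T) / H⌋₊, ?_, rfl⟩
      rw [hX, Finset.mem_filter, Finset.mem_range]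
      refine ⟨?_, t, ht, by linarith, by linarith, h5⟩
      have h9 : ⌊(t - T) / H⌋₊ ≤ ⌊T / H⌋₊ := by
        apply Nat.floor_le_floor
        apply div_le_div_of_nonneg_right _ hHpos.le
        linarith
      omega
    · push Not at h5
      exact ⟨2 * T - H, Finset.mem_insert_self _ _, by linarith, by linarith⟩

end Pool.Agent.T3H29.EI
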