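import Mathlib

/-!
# Exceptional short intervals (MP_ca0a54_nt): abstract parts

`Thin θ η E`: for large `T` the set `E ∩ [T, 2T]` is covered by at most `T^(η+ε)` intervals of length `T^θ`.

DIM (about 150 lines). Let `s > η / (1 - θ)`; it suffices (`dimH_le_of_hausdorffMeasure_ne_top`, countable unions:
`dimH_iUnion`) to bound `μH[s]` of `{α : p < α < q, ∃ᶠ n, f n α ∈ E}` for rational (or real) `a < p < q`. Put
`δ0 = s (1 - θ) - η`, `ε = δ0 / 2`, and let `F j` be the finite set of `Thin` for `T = 2^j`, `j ≥ j1`. If `p < α < q`,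
`f n α ∈ E`, `2^j ≤ f n α < 2^(j+1)`, then `f n p ≤ f n α < 2^(j+1)` (starshaped functions are increasing) and there is
`x ∈ F j` with `x ≤ f n α ≤ x + 2^(jθ)`. The set `U(n,j,x)` of all such `α` has diameter `≤ q 2^(j(θ-1))`, because
`f n β - f n α ≥ f n α (β - α) / α ≥ 2^j (β - α) / q` for `α ≤ β`. Use the Hausdorff-Cantelli lemma
`Pool.Agent.Y856.hausdorff_cantelli` (Pool/Agent/Y856/Metric/HC.lean, only Mathlib) with the index type `ℕ × ℕ × ℕ`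
(`x` = the `i`-th element of `F j`, or a `Finset` sum over `F j` and the index type `ℕ × ℕ × ℝ` is not countable, so
enumerate `F j` by `Fin`/`toList`), the set being empty unless `j ≥ j1`, `i < card (F j)`, `f n p < 2^(j+1)`. The sum of
the `diam^s` over `i` is at most `2^(j(η+ε)) q^s 2^(-j s (1-θ)) = q^s 2^(-j δ0/2) = q^s 2^(-jδ0/4) 2^(-jδ0/4)` and
`2^(-jδ0/4) ≤ (f n p / 2)^(-δ0/4)`: summable over `(n, j)`, being a product. The finitely many `n` with `f n p < 2^(j1+1)`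
do not matter (`∃ᶠ`; `f n p → ∞` by summability), so every `α` of the set is in infinitely many of the `U(n,j,i)`.

SEQ (about 120 lines). For `T = 2^j` and an interval `[x, x + T^θ]` the number of the `m` with `m^κ` in it and in
`[T, 2T]` is at most `1 + T^(θ-1+1/κ)`, because `(m+1)^κ - m^κ ≥ κ m^(κ-1) ≥ T^(1-1/κ)` (convexity, or
`(m+1)^κ ≥ m^(κ-1) (m+1)`; so the difference is `≥ m^(κ-1)`). Sum over `j ≤ log₂(M^κ)`: the number of terms is
`O(log M)`, each at most `2 (2 M^κ)^(η+ε) (1 + (2M^κ)^(max(0,θ-1+1/κ)))`, and `κ η < 1`, `κ (η + θ - 1) + 1 < 1`.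
-/

set_option autoImplicit false

namespace Pool.Agent.T3H29.EI

open MeasureTheory Filter Topology
open scoped ENNReal

/-- for large `T` the part of `E` in `[T, 2T]` is covered by at most `T^(η+ε)` intervals of length `T^θ` -/
def Thin (θ η : ℝ) (E : Set ℝ) : Prop :=
  ∀ ε : ℝ, 0 < ε → ∃ T0 : ℝ, ∀ T : ℝ, T0 ≤ T → ∃ F : Finset ℝ, (F.card : ℝ) ≤ T ^ (η + ε) ∧
    ∀ t ∈ E, T ≤ t → t ≤ 2 * T → ∃ x ∈ F, x ≤ t ∧ t ≤ x + T ^ θ

/-- DIM: Hausdorff dimension of the `α` with `f n α ∈ E` for infinitely many `n` -/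
def S_DIM : Prop := ∀ (θ η : ℝ) (E : Set ℝ), 0 < θ → θ < 1 → 0 ≤ η → Thin θ η E →
  ∀ (a : ℝ) (f : ℕ → ℝ → ℝ), 0 ≤ a →
    (∀ n : ℕ, ∀ x y : ℝ, a < x → x ≤ y → 0 < f n x ∧ f n x / x ≤ f n y / y) →
    (∀ x : ℝ, a < x → ∀ δ : ℝ, 0 < δ → Summable fun n => (f n x) ^ (-δ)) →
    dimH {α : ℝ | a < α ∧ ∃ᶠ n in atTop, f n α ∈ E} ≤ ENNReal.ofReal (η / (1 - θ))

open scoped Classical in
/-- SEQ: the powers `m^κ` in `E` -/
def S_SEQ : Prop := ∀ (θ η : ℝ) (E : Set ℝ), 0 < θ → θ < 1 → 0 ≤ η → Thin θ η E →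
  ∀ κ : ℝ, 1 ≤ κ → κ * η < 1 → η < 1 - θ → ∃ δ M0 : ℝ, 0 < δ ∧ ∀ M : ℕ, M0 ≤ M →
    (((Finset.Icc 1 M).filter (fun m : ℕ => (m : ℝ) ^ κ ∈ E)).card : ℝ) ≤ (M : ℝ) ^ (1 - δ)

end Pool.Agent.T3H29.EI
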