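import Pool.Agent.W192.SI.Final
import Pool.Agent.W192.AW.Main2
import Pool.Agent.W192.AW.Meas
import Pool.Agent.T3H29.EI.Stm

/-! One dyadic scale, with a Dirichlet polynomial of arbitrary length `T^ν`, `ν < 1`. -/

set_option autoImplicit false

namespace Pool.Agent.T3H29.EI

open Complex Filter Topology Set MeasureTheory
open SG hiding dd nn Sep cc
open Pool.Agent.W192.SI
open Pool.Agent.W192.AW

/-- one scale, arbitrary length `N` -/
theorem one_scale : ∃ C T0 : ℝ, 0 < C ∧ ∀ (T H ε : ℝ) (N : ℕ), T0 ≤ T → Adm H T → 2 ≤ N → (N : ℝ) ≤ T →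
    0 ≤ ε → ε ≤ 1 / 2 → C < ε * Real.log N → ∃ S : Set ℝ,
      volume S ≤ ENNReal.ofReal (50000 * XS H T (Kc H T N)) ∧
      ∀ W : ℝ, T ≤ W → W + H ≤ 2 * T → W + H / 2 ∉ S →
        ∃ n : ℕ, 1 ≤ n ∧ W ≤ ord n ∧ ord (n + 1) ≤ W + H ∧ ord (n + 1) - ord n ≤ dl (cN ε T N) T := by
  obtain ⟨Tn, C, hC, hns⟩ := Pool.Agent.W192.AW.no_sep
  refine ⟨C, Tn, hC, ?_⟩
  intro T H ε N hT hA hN2 hNT hε0 hε1 hCε
  set δ := dl (cN ε T N) T with hδ
  refine ⟨{t0 : ℝ | T ≤ t0 ∧ t0 ≤ 2 * T ∧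
      ¬ (G1 H T N δ t0 ∧ G2 H T N δ (hh δ) t0 ∧ G2 H T N δ (-(hh δ)) t0)},
    bad_total H T N hA (by omega) δ, ?_⟩
  intro W hW1 hW2 hgood
  have hHpos := hA.H_pos
  have hW : Win H T W N := ⟨hA, hW1, hW2, hN2, hNT⟩
  have hG : G1 H T N δ (W + H / 2) ∧ G2 H T N δ (hh δ) (W + H / 2) ∧
      G2 H T N δ (-(hh δ)) (W + H / 2) := by
    by_contra hcon
    exact hgood ⟨by linarith, by linarith, hcon⟩
  have hsep := hns ε H T W N hε0 hε1 hW hT hCε hG.1 hG.2.1 hG.2.2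
  obtain ⟨c1, c2⟩ := cN_facts hA (by omega : 1 ≤ N) hNT hε0 hε1
  exact gap_of_not_sep (by linarith [hA.T_ge']) (hA.dl_pos (by linarith : 0 < cN ε T N)).le hsep

/-- the bound for the exceptional set -/
theorem XS_le {H T : ℝ} {N : ℕ} (hA : Adm H T) (hN : 2 ≤ N) (hNT : (N : ℝ) ≤ T) :
    XS H T (Kc H T N) ≤ 2 ^ 36 * max T ((N : ℝ) ^ 2) * Real.log T ^ 37 / H := by
  have hL := hA.log_ge
  have hT := hA.T_pos
  have hHpos := hA.H_pos
  obtain ⟨k1, k2, k3, k4, k5⟩ := Kc_facts hA N (by omega)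
  set K := Kc H T N with hK
  have hN2 : (2 : ℝ) ≤ N := by exact_mod_cast hN
  have hNK : (N : ℝ) ≤ K := by exact_mod_cast k1
  have hK0 : (0 : ℝ) < K := by linarith
  have hK2 : (K : ℝ) ^ 2 ≤ 4 * (N : ℝ) ^ 2 := by
    have : (K : ℝ) ^ 2 ≤ (2 * (N : ℝ)) ^ 2 := pow_le_pow_left₀ hK0.le k4 2
    linarith [this, (by ring : (2 * (N : ℝ)) ^ 2 = 4 * (N : ℝ) ^ 2)]
  have hlogK : 1 + Real.log K ≤ 2 * Real.log T := by
    have h1 : (K : ℝ) ≤ 2 * T := by linarith
    have h2 := Real.log_le_log hK0 h1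
    rw [Real.log_mul (by norm_num) hT.ne'] at h2
    have := Real.log_two_lt_d9
    linarith
  have hlogK0 : 0 ≤ Real.log K := Real.log_nonneg (by linarith)
  have hx : xx H T = Real.log T ^ 4 / H := by
    unfold xx dd
    field_simp
  have hx0 := xx_pos hA
  have hm : T + (K : ℝ) ^ 2 ≤ 5 * max T ((N : ℝ) ^ 2) := by
    have h1 := le_max_left T ((N : ℝ) ^ 2)
    have h2 := le_max_right T ((N : ℝ) ^ 2)
    linarith
  have hm0 : 0 ≤ max T ((N : ℝ) ^ 2) := hT.le.trans (le_max_left _ _)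
  unfold XS
  have hpow : (1 + Real.log K) ^ 33 ≤ (2 * Real.log T) ^ 33 := pow_le_pow_left₀ (by linarith) hlogK 33
  calc (T + (K : ℝ) ^ 2) * (xx H T * (1 + Real.log K) ^ 33)
      ≤ (5 * max T ((N : ℝ) ^ 2)) * (xx H T * (2 * Real.log T) ^ 33) := by
        apply mul_le_mul hm _ (by positivity) (by positivity)
        exact mul_le_mul_of_nonneg_left hpow hx0.le
    _ = (5 * 2 ^ 33) * (max T ((N : ℝ) ^ 2) * Real.log T ^ 37 / H) := by
        rw [hx, mul_pow]; ring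
    _ ≤ 2 ^ 36 * (max T ((N : ℝ) ^ 2) * Real.log T ^ 37 / H) := by
        apply mul_le_mul_of_nonneg_right (by norm_num)
        have : 0 ≤ Real.log T := by linarith
        positivity
    _ = _ := by ring

/-- the exceptional set at one scale, power saving -/
theorem main_scale (c θ ε : ℝ) (hc : 1 / 2 < c) (hθ : 0 < θ) (hθ1 : θ < 1) (hε : 0 < ε) :
    ∃ T0 : ℝ, ∀ T : ℝ, T0 ≤ T → ∃ S : Set ℝ,
      volume S ≤ ENNReal.ofReal (T ^ (max 1 (2 / c - 2) - θ + ε)) ∧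
      ∀ W : ℝ, T ≤ W → W + T ^ θ / 2 ≤ 2 * T → W + T ^ θ / 4 ∉ S →
        ∃ n : ℕ, 1 ≤ n ∧ W ≤ ord n ∧ ord (n + 1) ≤ W + T ^ θ / 2 ∧
          ord (n + 1) - ord n < c * (2 * Real.pi / Real.log (2 * T)) := by
  obtain ⟨C, T1, hC, h1⟩ := one_scale
  have hc0 : 0 < c := by linarith
  -- exponents
  obtain ⟨ν0, hν0⟩ : ∃ ν0 : ℝ, ν0 = max (1 / c - 1) (1 / 4) := ⟨_, rfl⟩
  have hν01 : ν0 < 1 := by
    rw [hν0]
    apply max_lt _ (by norm_num)
    have : 1 / c < 2 := by rw [div_lt_iff₀ hc0]; linarith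
    linarith
  have hν0q : 1 / 4 ≤ ν0 := hν0 ▸ le_max_right _ _
  have hν0c : 1 / c - 1 ≤ ν0 := hν0 ▸ le_max_left _ _
  obtain ⟨ν, hν⟩ : ∃ ν : ℝ, ν = ν0 + min (ε / 4) ((1 - ν0) / 2) := ⟨_, rfl⟩
  have hmin : 0 < min (ε / 4) ((1 - ν0) / 2) := lt_min (by linarith) (by linarith)
  have hν1 : ν < 1 := by
    have := min_le_right (ε / 4) ((1 - ν0) / 2)
    linarith
  have hνν : ν0 < ν := by linarith
  have hνε : ν ≤ ν0 + ε / 4 := by
    have := min_le_left (ε / 4) ((1 - ν0) / 2)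
    linarith
  have hν00 : 0 < ν := by linarith
  have hcν : 1 < c * (1 + ν) := by
    have h2 : 1 / c < 1 + ν := by linarith
    rw [div_lt_iff₀ hc0] at h2
    linarith
  obtain ⟨e, he⟩ : ∃ e : ℝ, e = min (1 / 2) ((c * (1 + ν) - 1) / 2) := ⟨_, rfl⟩
  have he0 : 0 < e := by rw [he]; exact lt_min (by norm_num) (by linarith)
  have he1 : e ≤ 1 / 2 := he ▸ min_le_left _ _
  have he2 : e ≤ (c * (1 + ν) - 1) / 2 := he ▸ min_le_right _ _
  have hm1 : 1 ≤ max 1 (2 / c - 2) := le_max_left _ _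
  have h2ν : 2 * ν ≤ max 1 (2 / c - 2) + ε / 2 := by
    have h3 : 2 * ν0 ≤ max 1 (2 / c - 2) := by
      rw [hν0]
      rcases le_total (1 / c - 1) (1 / 4) with h | h
      · rw [max_eq_right h]; linarith
      · rw [max_eq_left h]
        refine le_trans (le_of_eq ?_) (le_max_right _ _)
        ring
    linarith
  -- conditions for large `T`
  have ev1 : ∀ᶠ T : ℝ in atTop, 2 * Real.log T ^ 6 ≤ T ^ θ := by
    have h3 := (isLittleO_log_rpow_rpow_atTop (6 : ℝ) hθ).bound (show (0 : ℝ) < 1 / 2 by norm_num)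
    filter_upwards [h3, eventually_ge_atTop (1 : ℝ)] with T h4 h5
    have hlog : 0 ≤ Real.log T := Real.log_nonneg h5
    rw [Real.norm_of_nonneg (Real.rpow_nonneg hlog _), Real.norm_of_nonneg (by positivity)] at h4
    have h6 : Real.log T ^ (6 : ℝ) = Real.log T ^ 6 := by
      rw [← Real.rpow_natCast]; norm_num
    rw [h6] at h4
    linarith
  have ev2 : ∀ᶠ T : ℝ in atTop, 100000 * 2 ^ 36 * Real.log T ^ 37 ≤ T ^ (ε / 2) := by
    have h3 := (isLittleO_log_rpow_rpow_atTop (37 : ℝ) (half_pos hε)).bound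
      (show (0 : ℝ) < 1 / (100000 * 2 ^ 36) by norm_num)
    filter_upwards [h3, eventually_ge_atTop (1 : ℝ)] with T h4 h5
    have hlog : 0 ≤ Real.log T := Real.log_nonneg h5
    rw [Real.norm_of_nonneg (Real.rpow_nonneg hlog _), Real.norm_of_nonneg (by positivity)] at h4
    have h6 : Real.log T ^ (37 : ℝ) = Real.log T ^ 37 := by
      rw [← Real.rpow_natCast]; norm_num
    rw [h6, one_div_mul_eq_div, le_div_iff₀ (by norm_num)] at h4
    linarith
  have ev3 : ∀ᶠ T : ℝ in atTop, 4 ≤ T ^ ν :=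
    (tendsto_rpow_atTop hν00).eventually_ge_atTop 4
  have ev4 : ∀ᶠ T : ℝ in atTop, (C / e + 1 + Real.log 2) / ν ≤ Real.log T :=
    Real.tendsto_log_atTop.eventually_ge_atTop _
  have ev5 : ∀ᶠ T : ℝ in atTop, (1 + e + c) * Real.log 2 < e * Real.log T := by
    have h3 : Tendsto (fun T : ℝ => e * Real.log T) atTop atTop := Real.tendsto_log_atTop.const_mul_atTop he0
    exact h3.eventually_gt_atTop _
  have ev6 := (ev1.and ev2).and ((ev3.and ev4).and (ev5.and (eventually_ge_atTop (max T1 (Real.exp 100)))))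
  obtain ⟨T0, hT0⟩ := eventually_atTop.1 ev6
  refine ⟨T0, fun T hT => ?_⟩
  obtain ⟨⟨c1, c2⟩, ⟨c3, c4⟩, c5, c6⟩ := hT0 T hT
  have hT1 : T1 ≤ T := (le_max_left _ _).trans c6
  have hTe : Real.exp 100 ≤ T := (le_max_right _ _).trans c6
  have hTpos : 0 < T := (Real.exp_pos _).trans_le hTe
  have hL : 100 ≤ Real.log T := by
    rw [Real.le_log_iff_exp_le hTpos]; exact hTe
  have hT1' : 1 ≤ T := by
    have := Real.add_one_le_exp (100 : ℝ)
    linarith
  have hTθ : T ^ θ ≤ T := by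
    calc T ^ θ ≤ T ^ (1 : ℝ) := Real.rpow_le_rpow_of_exponent_le hT1' hθ1.le
      _ = T := Real.rpow_one T
  have hTθ0 : 0 < T ^ θ := Real.rpow_pos_of_pos hTpos _
  have hA : Adm (T ^ θ / 2) T := ⟨hTe, by linarith, by linarith⟩
  obtain ⟨N, hN⟩ : ∃ N : ℕ, N = ⌊T ^ ν⌋₊ := ⟨_, rfl⟩
  have hTν0 : 0 < T ^ ν := Real.rpow_pos_of_pos hTpos _
  have hNle : (N : ℝ) ≤ T ^ ν := by rw [hN]; exact Nat.floor_le hTν0.le
  have hNge : T ^ ν / 2 ≤ N := by
    have h3 : T ^ ν < (N : ℝ) + 1 := by rw [hN]; exact Nat.lt_floor_add_one _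
    linarith
  have hN2 : 2 ≤ N := by
    have : (2 : ℝ) ≤ N := by linarith
    exact_mod_cast this
  have hNT : (N : ℝ) ≤ T := by
    refine hNle.trans ?_
    calc T ^ ν ≤ T ^ (1 : ℝ) := Real.rpow_le_rpow_of_exponent_le hT1' hν1.le
      _ = T := Real.rpow_one T
  have hN0 : (0 : ℝ) < N := by
    have : (2 : ℝ) ≤ N := by exact_mod_cast hN2
    linarith
  have hlogN : ν * Real.log T - Real.log 2 ≤ Real.log N := by
    have h3 := Real.log_le_log (by positivity) hNge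
    rw [Real.log_div hTν0.ne' (by norm_num), Real.log_rpow hTpos] at h3
    exact h3
  have hCe : C < e * Real.log N := by
    have h3 : (C / e + 1 + Real.log 2) ≤ Real.log T * ν := by rwa [div_le_iff₀ hν00] at c4
    have h4 : C / e < Real.log N := by linarith
    rw [div_lt_iff₀ he0] at h4
    linarith
  obtain ⟨S, hS1, hS2⟩ := h1 T (T ^ θ / 2) e N hT1 hA hN2 hNT he0.le he1 hCe
  refine ⟨S, hS1.trans (ENNReal.ofReal_le_ofReal ?_), ?_⟩
  · have h3 := XS_le hA hN2 hNT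
    have h4 : max T ((N : ℝ) ^ 2) ≤ T ^ (max 1 (2 / c - 2) + ε / 2) := by
      apply max_le
      · calc T = T ^ (1 : ℝ) := (Real.rpow_one T).symm
          _ ≤ _ := Real.rpow_le_rpow_of_exponent_le hT1' (by linarith)
      · calc (N : ℝ) ^ 2 ≤ (T ^ ν) ^ 2 := pow_le_pow_left₀ hN0.le hNle 2
          _ = T ^ (2 * ν) := by
            rw [← Real.rpow_natCast, ← Real.rpow_mul hTpos.le]
            congr 1
            push_cast
            ring
          _ ≤ _ := Real.rpow_le_rpow_of_exponent_le hT1' h2ν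
    have hL37 : 0 ≤ Real.log T ^ 37 := by positivity
    calc 50000 * XS (T ^ θ / 2) T (Kc (T ^ θ / 2) T N)
        ≤ 50000 * (2 ^ 36 * max T ((N : ℝ) ^ 2) * Real.log T ^ 37 / (T ^ θ / 2)) :=
          mul_le_mul_of_nonneg_left h3 (by norm_num)
      _ = max T ((N : ℝ) ^ 2) * (100000 * 2 ^ 36 * Real.log T ^ 37) / T ^ θ := by
          field_simp
          ring
      _ ≤ T ^ (max 1 (2 / c - 2) + ε / 2) * T ^ (ε / 2) / T ^ θ := by
          apply div_le_div_of_nonneg_right _ hTθ0.le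
          exact mul_le_mul h4 c2 (by positivity) (by positivity)
      _ = T ^ (max 1 (2 / c - 2) - θ + ε) := by
          rw [← Real.rpow_add hTpos, ← Real.rpow_sub hTpos]
          congr 1
          ring
  · intro W hW1 hW2 hW3
    obtain ⟨n, hn, a1, a2, a3⟩ := hS2 W hW1 hW2 (by
      have : W + T ^ θ / 2 / 2 = W + T ^ θ / 4 := by ring
      rw [this]; exact hW3)
    refine ⟨n, hn, a1, a2, lt_of_le_of_lt a3 ?_⟩
    have hpi := Real.pi_pos
    have hlogN0 : 0 ≤ Real.log N := Real.log_nonneg (by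
      have : (2 : ℝ) ≤ N := by exact_mod_cast hN2
      linarith)
    have e1 : dl (cN e T N) T = 2 * Real.pi * ((1 + e) / (Real.log T + Real.log N)) := by
      unfold dl cN
      field_simp
    have e2 : c * (2 * Real.pi / Real.log (2 * T)) = 2 * Real.pi * (c / Real.log (2 * T)) := by ring
    rw [e1, e2]
    apply mul_lt_mul_of_pos_left _ (by positivity)
    have hlog2T : Real.log (2 * T) = Real.log 2 + Real.log T := Real.log_mul (by norm_num) hTpos.ne'
    have hlog2 : 0 < Real.log 2 := Real.log_pos (by norm_num)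
    rw [hlog2T, div_lt_div_iff₀ (by linarith) (by linarith)]
    have h5 : c * ((1 + ν) * Real.log T - Real.log 2) ≤ c * (Real.log T + Real.log N) :=
      mul_le_mul_of_nonneg_left (by linarith) hc0.le
    have h6 : (1 + 2 * e) * Real.log T ≤ c * (1 + ν) * Real.log T :=
      mul_le_mul_of_nonneg_right (by linarith) (by linarith)
    nlinarith

end Pool.Agent.T3H29.EI
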